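import Pool.Agent.Helper62.EX.TB

set_option autoImplicit false

open Finset
open scoped Classical

namespace OT

noncomputable section

variable {n : ℕ}

theorem dl_ch_lt {T : PTree n} {w c : Fin n} (h : c ∈ T.ch w) : w < c := by
  have h1 := (mem_filter.1 h).2
  have h2 := T.lt c h1.1
  rwa [h1.2] at h2

theorem dl_ch_le {T : PTree n} {w c : Fin n} (h : c ∈ T.ch w) : T.Le w c := by
  have h1 := (mem_filter.1 h).2
  rw [PTree.le_iff]
  right
  refine ⟨h1.1, ?_⟩
  rw [h1.2]
  exact PTree.Le.refl T w

theorem dl_item_false (T : PTree n) (far : Fin n → Bool) (t : Fin n) :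
    T.item far false t = T.sub t := by
  simp [PTree.item, PTree.tops]

theorem dl_sum_item_true (T : PTree n) (far : Fin n → Bool) (t : Fin n) (g : Fin n → ℤ) :
    ∑ x ∈ T.item far true t, g x = ∑ c ∈ T.far far t, ∑ x ∈ T.sub c, g x := by
  unfold PTree.item PTree.tops
  rw [if_pos rfl, sum_biUnion]
  intro c hc c' hc' hne
  exact PTree.sub_disjoint (mem_filter.1 (mem_coe.1 hc)).1 (mem_filter.1 (mem_coe.1 hc')).1 hne

theorem descend {Δ : ℕ} (T : PTree n) (hΔ : T.Deg Δ) (g : Fin n → ℤ) (hg : ∀ v, |g v| ≤ 1)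
    (pos far : Fin n → Bool) (Z : Finset (Fin n)) (hZ : T.Alt pos far Z) (β : Bool) (z : Fin n)
    (θ : ℤ) (h1 : θ ≤ ∑ x ∈ T.sub z, g x) (h2 : 4 * ((Δ : ℤ) + 1) ^ 2 * (Z.card + 1) ≤ θ) :
    ∃ b : Bool, ∃ t ∈ T.sub z, t ∉ Z ∧ (b = false → t ≠ z ∧ pos t = β) ∧
      (∀ c ∈ T.tops far b t, ∑ x ∈ T.sub c, g x ≤ θ) ∧
      θ ≤ 2 * ((Δ : ℤ) + 1) ^ 2 * (Z.card + 1) * ∑ x ∈ T.item far b t, g x := by
  by_contra hcon
  push Not at hcon
  set G : Fin n → ℤ := fun w => ∑ x ∈ T.sub w, g x with hG
  set k : ℤ := 2 * ((Δ : ℤ) + 1) ^ 2 * (Z.card + 1) with hk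
  have hΔ0 : (0:ℤ) ≤ Δ := Int.natCast_nonneg _
  have hZ0 : (0:ℤ) ≤ Z.card := Int.natCast_nonneg _
  have hk0 : 0 < k := by rw [hk]; positivity
  have hθk : 2 * k ≤ θ := by rw [hk]; linarith
  -- the lowest vertex with large mass
  have hne : ((T.sub z).filter (fun w => θ ≤ G w)).Nonempty :=
    ⟨z, mem_filter.2 ⟨PTree.mem_sub.2 (PTree.Le.refl T z), h1⟩⟩
  obtain ⟨v, hv, hvmax⟩ := exists_max_image _ (fun w : Fin n => w) hne
  rw [mem_filter, PTree.mem_sub] at hv
  obtain ⟨hzv, hvθ⟩ := hv
  have hprop : ∀ w, T.Le v w → w ≠ v → G w < θ := by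
    intro w hw hwv
    by_contra h3
    have h4 := hvmax w (mem_filter.2 ⟨PTree.mem_sub.2 (hzv.trans hw), not_lt.1 h3⟩)
    exact hwv (le_antisymm h4 hw.le)
  set μ : ℤ := (θ - 1) / k with hμ
  have hμ0 : 0 ≤ μ := Int.ediv_nonneg (by linarith) hk0.le
  have hμk : k * μ < θ := by
    have := Int.mul_ediv_self_le (x := θ - 1) (k := k) hk0.ne'
    linarith
  have hmass : ∀ m : ℤ, k * m < θ → m ≤ μ := by
    intro m hm
    rw [hμ, Int.le_ediv_iff_mul_le hk0]
    linarith [mul_comm k m]
  have hs : ∀ w, T.Le v w → w ≠ v → w ∉ Z → pos w = β → G w ≤ μ := by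
    intro w hw hwv hwZ hwp
    apply hmass
    have hwz : w ≠ z := by
      intro h
      subst h
      exact hwv (le_antisymm hzv.le hw.le)
    have h3 := hcon false w (PTree.mem_sub.2 (hzv.trans hw)) hwZ (fun _ => ⟨hwz, hwp⟩) (by
      intro c hc
      have : c = w := by simpa [PTree.tops] using hc
      rw [this]; exact (hprop w hw hwv).le)
    rwa [dl_item_false] at h3
  have hgp : ∀ w, T.Le v w → w ∉ Z → ∑ c ∈ T.far far w, G c ≤ μ := by
    intro w hw hwZ
    apply hmass
    have h3 := hcon true w (PTree.mem_sub.2 (hzv.trans hw)) hwZ (fun h => by simp at h) (by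
      intro c hc
      have hc' : c ∈ T.far far w := by simpa [PTree.tops] using hc
      have hc2 := (mem_filter.1 hc').1
      refine (hprop c (hw.trans (dl_ch_le hc2)) ?_).le
      have h4 := hw.le
      have h5 := dl_ch_lt hc2
      exact (lt_of_le_of_lt h4 h5).ne')
    rwa [dl_sum_item_true] at h3
  -- inner vertices
  set I : Finset (Fin n) := {v} ∪ (Z.filter (T.Le v)) ∪ ((Z.filter (T.Le v)).biUnion T.ch) ∪ T.ch v
    with hI
  set N : Fin n → ℤ := fun w => ∑ x ∈ T.sub w, (if x ∈ I then (1:ℤ) else 0) with hN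
  have hN0 : ∀ w, 0 ≤ N w := fun w => sum_nonneg (fun x _ => by split_ifs <;> norm_num)
  set M : ℤ := 1 + ((Δ:ℤ) + 1) * μ with hM
  have hM0 : 0 ≤ M := by rw [hM]; positivity
  have claim : ∀ (r : ℕ) (w : Fin n), n - (w : ℕ) = r → T.Le v w → w ∈ I →
      (w = v ∨ w ∈ Z ∨ pos w ≠ β) → G w ≤ N w * M := by
    intro r
    induction r using Nat.strong_induction_on with
    | _ r ih =>
      intro w hr hw hwI hcase
      have hGw : G w = g w + ∑ c ∈ T.ch w, G c := PTree.sum_sub T g w
      have hNw : N w = 1 + ∑ c ∈ T.ch w, N c := by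
        have := PTree.sum_sub T (fun x => if x ∈ I then (1:ℤ) else 0) w
        simp only [if_pos hwI] at this
        exact this
      have hgw : g w ≤ 1 := (abs_le.1 (hg w)).2
      have hchild : ∀ c ∈ T.ch w, (c ∈ Z ∨ pos c ≠ β) → c ∈ I → G c ≤ N c * M := by
        intro c hc h3 hcI
        have hlt := dl_ch_lt hc
        have hlt' : (w : ℕ) < (c : ℕ) := hlt
        have hcn := c.isLt
        exact ih (n - (c:ℕ)) (by omega) c rfl (hw.trans (dl_ch_le hc)) hcI (Or.inr h3)
      have hcv : ∀ c ∈ T.ch w, c ≠ v := by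
        intro c hc h3
        subst h3
        exact absurd (dl_ch_lt hc) (not_lt.2 hw.le)
      have hbound : ∀ c ∈ T.ch w, (far c = false ∨ w ∈ Z) → G c ≤ μ + N c * M := by
        intro c hc h3
        have hNM := mul_nonneg (hN0 c) hM0
        by_cases hcZ : c ∈ Z
        · have hcI : c ∈ I := by
            rw [hI]
            simp only [mem_union, mem_filter]
            exact Or.inl (Or.inl (Or.inr ⟨hcZ, hw.trans (dl_ch_le hc)⟩))
          linarith [hchild c hc (Or.inl hcZ) hcI]
        · by_cases hcp : pos c = β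
          · linarith [hs c (hw.trans (dl_ch_le hc)) (hcv c hc) hcZ hcp]
          · have hcI : c ∈ I := by
              rcases h3 with h3 | h3
              · by_cases hwZ : w ∈ Z
                · rw [hI]
                  simp only [mem_union, mem_biUnion, mem_filter]
                  exact Or.inl (Or.inr ⟨w, ⟨hwZ, hw⟩, hc⟩)
                · have hc' := (mem_filter.1 hc).2
                  have h4 : pos c ≠ pos w := by
                    rcases hZ c hc'.1 hcZ with h5 | h5
                    · rw [h3] at h5; exact absurd h5 (by simp)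
                    · rwa [hc'.2] at h5
                  have h5 : pos w = β := by
                    revert hcp h4
                    cases pos c <;> cases pos w <;> cases β <;> simp
                  have h6 : w = v := by
                    rcases hcase with h6 | h6 | h6
                    · exact h6
                    · exact absurd h6 hwZ
                    · exact absurd h5 h6
                  rw [hI]
                  simp only [mem_union]
                  right
                  rw [← h6]; exact hc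
              · rw [hI]
                simp only [mem_union, mem_biUnion, mem_filter]
                exact Or.inl (Or.inr ⟨w, ⟨h3, hw⟩, hc⟩)
            linarith [hchild c hc (Or.inr hcp) hcI]
      have hcard : ((T.ch w).card : ℤ) ≤ Δ := by exact_mod_cast hΔ w
      have hsumN : ∀ S ⊆ T.ch w, ∑ c ∈ S, N c ≤ ∑ c ∈ T.ch w, N c := fun S hS =>
        sum_le_sum_of_subset_of_nonneg hS (fun c _ _ => hN0 c)
      have key : ∑ c ∈ T.ch w, G c ≤ μ + Δ * μ + (∑ c ∈ T.ch w, N c) * M := by
        by_cases hwZ : w ∈ Z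
        · calc ∑ c ∈ T.ch w, G c ≤ ∑ c ∈ T.ch w, (μ + N c * M) :=
                sum_le_sum (fun c hc => hbound c hc (Or.inr hwZ))
            _ = (T.ch w).card * μ + (∑ c ∈ T.ch w, N c) * M := by
                rw [sum_add_distrib, sum_const, nsmul_eq_mul, sum_mul]
            _ ≤ μ + Δ * μ + (∑ c ∈ T.ch w, N c) * M := by
                have := mul_le_mul_of_nonneg_right hcard hμ0
                linarith
        · have hsplit := sum_filter_add_sum_filter_not (T.ch w) (fun c => far c = true) G
          have hfar := hgp w hw hwZ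
          have hnf : ∑ c ∈ (T.ch w).filter (fun c => ¬ far c = true), G c ≤
              Δ * μ + (∑ c ∈ T.ch w, N c) * M := by
            calc ∑ c ∈ (T.ch w).filter (fun c => ¬ far c = true), G c
                ≤ ∑ c ∈ (T.ch w).filter (fun c => ¬ far c = true), (μ + N c * M) := by
                  apply sum_le_sum
                  intro c hc
                  have hc' := mem_filter.1 hc
                  exact hbound c hc'.1 (Or.inl (by simpa using hc'.2))
              _ = ((T.ch w).filter (fun c => ¬ far c = true)).card * μ +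
                  (∑ c ∈ (T.ch w).filter (fun c => ¬ far c = true), N c) * M := by
                  rw [sum_add_distrib, sum_const, nsmul_eq_mul, sum_mul]
              _ ≤ Δ * μ + (∑ c ∈ T.ch w, N c) * M := by
                  have h7 : (((T.ch w).filter (fun c => ¬ far c = true)).card : ℤ) ≤ Δ :=
                    le_trans (Nat.cast_le.2
                      (card_filter_le (T.ch w) (fun c => ¬ far c = true))) hcard
                  have h8 := mul_le_mul_of_nonneg_right h7 hμ0
                  have h9 := mul_le_mul_of_nonneg_right (hsumN ((T.ch w).filter (fun c => ¬ far c = true))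
                    (filter_subset _ _)) hM0
                  exact add_le_add h8 h9
          have hfar' : ∑ c ∈ (T.ch w).filter (fun c => far c = true), G c ≤ μ := hfar
          linarith
      calc G w = g w + ∑ c ∈ T.ch w, G c := hGw
        _ ≤ 1 + (μ + Δ * μ + (∑ c ∈ T.ch w, N c) * M) := add_le_add hgw key
        _ = N w * M := by rw [hNw, hM]; ring
  -- the count at v
  have hvI : v ∈ I := by rw [hI]; simp
  have hGv := claim _ v rfl (PTree.Le.refl T v) hvI (Or.inl rfl)
  have hNv : N v ≤ I.card := by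
    calc N v ≤ ∑ x, (if x ∈ I then (1:ℤ) else 0) :=
          sum_le_sum_of_subset_of_nonneg (subset_univ _) (fun x _ _ => by split_ifs <;> norm_num)
      _ = I.card := by rw [sum_boole]; simp
  have hIc : (I.card : ℤ) ≤ ((Δ:ℤ) + 1) * (Z.card + 1) := by
    have h3 : (Z.filter (T.Le v)).card ≤ Z.card := card_filter_le _ _
    have h4 : ((Z.filter (T.Le v)).biUnion T.ch).card ≤ (Z.filter (T.Le v)).card * Δ :=
      card_biUnion_le_card_mul _ _ _ (fun w _ => hΔ w)
    have h5 : (T.ch v).card ≤ Δ := hΔ v
    have h6 : I.card ≤ 1 + Z.card + Z.card * Δ + Δ := by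
      calc I.card ≤ (({v} ∪ (Z.filter (T.Le v)) ∪ ((Z.filter (T.Le v)).biUnion T.ch)).card +
            (T.ch v).card) := card_union_le _ _
        _ ≤ (({v} ∪ (Z.filter (T.Le v)) : Finset (Fin n)).card +
            ((Z.filter (T.Le v)).biUnion T.ch).card) + (T.ch v).card :=
            Nat.add_le_add_right (card_union_le _ _) _
        _ ≤ ((({v} : Finset (Fin n)).card + (Z.filter (T.Le v)).card) +
            ((Z.filter (T.Le v)).biUnion T.ch).card) + (T.ch v).card :=
            Nat.add_le_add_right (Nat.add_le_add_right (card_union_le _ _) _) _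
        _ ≤ 1 + Z.card + Z.card * Δ + Δ := by
            rw [card_singleton]
            have := Nat.mul_le_mul_right Δ h3
            omega
    have h7 : (I.card : ℤ) ≤ 1 + Z.card + Z.card * Δ + Δ := by exact_mod_cast h6
    linarith
  have h3 : θ ≤ ((Δ:ℤ) + 1) * (Z.card + 1) * M := by
    calc θ ≤ G v := hvθ
      _ ≤ N v * M := hGv
      _ ≤ _ := mul_le_mul_of_nonneg_right (hNv.trans hIc) hM0
  have h4 : 4 * (((Δ:ℤ) + 1) * (Z.card + 1)) ≤ θ := by
    have : ((Δ:ℤ) + 1) * (Z.card + 1) ≤ ((Δ:ℤ) + 1) ^ 2 * (Z.card + 1) := by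
      apply mul_le_mul_of_nonneg_right _ (by linarith)
      nlinarith
    linarith
  have h5 : 2 * (((Δ:ℤ) + 1) * (Z.card + 1) * M) = 2 * (((Δ:ℤ) + 1) * (Z.card + 1)) + k * μ := by
    rw [hM, hk]; ring
  linarith

end

end OT
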